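import Pool.Agent.Helper57.SI.Stmts
import Pool.Agent.Helper33.QZ.AR

/-!
# SI, row AW: `Fy` and its derivative are small at all points of almost all intervals
-/

set_option autoImplicit false

namespace Pool.Agent.Helper73.SI

open MeasureTheory Set Filter Topology Complex
open Pool.Agent.Helper33.QZ
open Pool.Agent.Helper57.QZ (Pr tor circ aa Zy Wy Sy Vy Ky Fy pt lin)

theorem aw_pt {F : ℂ → ℂ} (hF : DifferentiableOn ℂ F U) {t k : ℝ} (ht : 1 ≤ t) (hk : 0 < k)
    (h : ∫ v in t..(t + 1), (G F 1 v + G (deriv F) 1 v) ≤ k ^ 2) : ‖F (pt 1 t)‖ ≤ 2 * k := by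
  have hF' : DifferentiableOn ℂ (deriv F) U := hF.deriv isOpen_U
  have hU : ∀ v : ℝ, 1 ≤ v → pt 1 v ∈ U := fun v hv => by
    change 0 < (pt 1 v).im
    rw [pt_im]; linarith
  have hptc : Continuous (fun v : ℝ => pt 1 v) := by unfold pt; fun_prop
  have hder : ∀ v : ℝ, 1 ≤ v →
      HasDerivAt (fun v : ℝ => F (pt 1 v)) (deriv F (pt 1 v) * I) v := by
    intro v hv
    have h3 := (hF.differentiableAt (isOpen_U.mem_nhds (hU v hv))).hasDerivAt
    have h4 : HasDerivAt (fun z : ℂ => ((1 : ℝ) : ℂ) + z * I) I (v : ℂ) := by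
      simpa using ((hasDerivAt_id (v : ℂ)).mul_const I).const_add ((1 : ℝ) : ℂ)
    exact (HasDerivAt.comp (v : ℂ) h3 h4).comp_ofReal
  have hc1 : ContinuousOn (fun v : ℝ => F (pt 1 v)) (Icc t (t + 1)) :=
    hF.continuousOn.comp hptc.continuousOn fun v hv => hU v (ht.trans hv.1)
  have hc2 : ContinuousOn (fun v : ℝ => deriv F (pt 1 v)) (Icc t (t + 1)) :=
    hF'.continuousOn.comp hptc.continuousOn fun v hv => hU v (ht.trans hv.1)
  have ii : ∀ {f : ℝ → ℝ}, ContinuousOn f (Icc t (t + 1)) →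
      IntervalIntegrable f volume t (t + 1) := fun {f} hf => by
    apply ContinuousOn.intervalIntegrable
    rw [uIcc_of_le (by linarith)]
    exact hf
  have j1 : IntervalIntegrable (fun v => ‖F (pt 1 v)‖) volume t (t + 1) := ii hc1.norm
  have j2 : IntervalIntegrable (fun v => ‖deriv F (pt 1 v)‖) volume t (t + 1) := ii hc2.norm
  have e1 : ∀ v ∈ Icc t (t + 1), ‖F (pt 1 t)‖ ≤
      ‖F (pt 1 v)‖ + ∫ w in t..(t + 1), ‖deriv F (pt 1 w)‖ := by
    intro v hv
    have hftc : ∫ w in t..v, deriv F (pt 1 w) * I = F (pt 1 v) - F (pt 1 t) := by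
      apply intervalIntegral.integral_eq_sub_of_hasDerivAt
      · intro w hw
        rw [uIcc_of_le hv.1] at hw
        exact hder w (ht.trans hw.1)
      · apply ContinuousOn.intervalIntegrable
        rw [uIcc_of_le hv.1]
        exact (hc2.mono (Icc_subset_Icc_right hv.2)).mul continuousOn_const
    have e2 : ‖∫ w in t..v, deriv F (pt 1 w) * I‖ ≤ ∫ w in t..(t + 1), ‖deriv F (pt 1 w)‖ := by
      refine (intervalIntegral.norm_integral_le_integral_norm hv.1).trans ?_
      have e3 : ∫ w in t..v, ‖deriv F (pt 1 w) * I‖ = ∫ w in t..v, ‖deriv F (pt 1 w)‖ := by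
        refine intervalIntegral.integral_congr fun w _ => ?_
        simp
      rw [e3]
      exact intervalIntegral.integral_mono_interval le_rfl hv.1 hv.2
        (Eventually.of_forall fun w => norm_nonneg _) j2
    have e4 : F (pt 1 t) = F (pt 1 v) - ∫ w in t..v, deriv F (pt 1 w) * I := by
      rw [hftc]; ring
    rw [e4]
    exact (norm_sub_le _ _).trans (by linarith)
  have e5 : ∫ v in t..(t + 1), ‖F (pt 1 t)‖ ≤
      ∫ v in t..(t + 1), (‖F (pt 1 v)‖ + ∫ w in t..(t + 1), ‖deriv F (pt 1 w)‖) := by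
    refine intervalIntegral.integral_mono_on (by linarith) ?_ ?_ e1
    · exact continuous_const.intervalIntegrable _ _
    · exact j1.add (continuous_const.intervalIntegrable _ _)
  rw [intervalIntegral.integral_add j1 (continuous_const.intervalIntegrable _ _),
    intervalIntegral.integral_const, intervalIntegral.integral_const] at e5
  simp only [add_sub_cancel_left, one_smul] at e5
  have e6 : (∫ v in t..(t + 1), ‖F (pt 1 v)‖) + ∫ w in t..(t + 1), ‖deriv F (pt 1 w)‖ ≤
      ∫ v in t..(t + 1), ((2 * k)⁻¹ * (G F 1 v + G (deriv F) 1 v) + k) := by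
    rw [← intervalIntegral.integral_add j1 j2]
    refine intervalIntegral.integral_mono_on (by linarith) (j1.add j2) ?_ fun v hv => ?_
    · exact Continuous.intervalIntegrable ((continuous_const.mul
        ((G_cont' hF continuous_const continuous_id).add
          (G_cont' hF' continuous_const continuous_id))).add continuous_const) _ _
    · rw [G_eq _ _ (ht.trans hv.1), G_eq _ _ (ht.trans hv.1)]
      have s1 := sq_nonneg (‖F (pt 1 v)‖ - k)
      have s2 := sq_nonneg (‖deriv F (pt 1 v)‖ - k)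
      have s3 : (2 * k)⁻¹ * (‖F (pt 1 v)‖ ^ 2 + ‖deriv F (pt 1 v)‖ ^ 2) + k -
          (‖F (pt 1 v)‖ + ‖deriv F (pt 1 v)‖) =
          (2 * k)⁻¹ * ((‖F (pt 1 v)‖ - k) ^ 2 + (‖deriv F (pt 1 v)‖ - k) ^ 2) := by
        field_simp; ring
      rw [← sub_nonneg, s3]
      positivity
  have j3 : IntervalIntegrable (fun v => (2 * k)⁻¹ * (G F 1 v + G (deriv F) 1 v)) volume
      t (t + 1) := Continuous.intervalIntegrable (continuous_const.mul
        ((G_cont' hF continuous_const continuous_id).add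
          (G_cont' hF' continuous_const continuous_id))) _ _
  rw [intervalIntegral.integral_add j3 (continuous_const.intervalIntegrable _ _),
    intervalIntegral.integral_const_mul, intervalIntegral.integral_const] at e6
  simp only [add_sub_cancel_left, one_smul] at e6
  have e7 : (2 * k)⁻¹ * ∫ v in t..(t + 1), (G F 1 v + G (deriv F) 1 v) ≤ (2 * k)⁻¹ * k ^ 2 :=
    mul_le_mul_of_nonneg_left h (by positivity)
  have e8 : (2 * k)⁻¹ * k ^ 2 = k / 2 := by field_simp
  linarith

open Pool.Agent.Helper57.SI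

theorem st_AW (h1 : Pool.Agent.Helper57.QZ.ST_MS) (h2 : ST_MK) : ST_AW := by
  intro η hη κ hκ H hH
  have hη0 : 0 < η := hη.1
  obtain ⟨c, hcd⟩ : ∃ c : ℝ, c = (η / 2) ^ 2 := ⟨_, rfl⟩
  have hc : 0 < c := by rw [hcd]; positivity
  obtain ⟨κ', hκd⟩ : ∃ κ' : ℝ, κ' = κ * c / ((H + 2) * 16644) := ⟨_, rfl⟩
  have hκ' : 0 < κ' := by rw [hκd]; positivity
  obtain ⟨y₀, hy₀⟩ := h1 (1 / 8) ⟨by norm_num, by norm_num⟩ κ' hκ'
  refine ⟨y₀, fun y hy => ?_⟩
  obtain ⟨T₀, hT₀, hMS⟩ := hy₀ y hy
  refine ⟨2 * T₀ + 2 * H + 8, by linarith, fun T hT => ?_⟩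
  have hF := Fy_diff y
  obtain ⟨F, hFd⟩ : ∃ F, F = Fy y := ⟨_, rfl⟩
  rw [← hFd] at hF hMS ⊢
  have hF' : DifferentiableOn ℂ (deriv F) U := hF.deriv isOpen_U
  have hF'' : DifferentiableOn ℂ (deriv (deriv F)) U := hF'.deriv isOpen_U
  have ci : ∀ (x a b : ℝ), IntervalIntegrable (fun t => G F x t) volume a b := fun x a b =>
    Continuous.intervalIntegrable (G_cont' hF continuous_const continuous_id) _ _
  have ci' : ∀ (x a b : ℝ), IntervalIntegrable (fun t => G (deriv F) x t) volume a b :=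
    fun x a b => Continuous.intervalIntegrable (G_cont' hF' continuous_const continuous_id) _ _
  have ci'' : ∀ (x a b : ℝ), IntervalIntegrable (fun t => G (deriv (deriv F)) x t) volume a b :=
    fun x a b => Continuous.intervalIntegrable (G_cont' hF'' continuous_const continuous_id) _ _
  have mono : ∀ (x a b a' b' : ℝ), a' ≤ a → a ≤ b → b ≤ b' →
      ∫ t in a..b, G F x t ≤ ∫ t in a'..b', G F x t := fun x a b a' b' ha hab hb =>
    intervalIntegral.integral_mono_interval ha hab hb
      (Eventually.of_forall fun t => G_nonneg _ _ _) (ci x a' b')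
  have gS : ∀ S, T₀ ≤ S → ∀ x ∈ Icc (3 / 4 : ℝ) (5 / 4),
      ∫ t in (S - 1)..(2 * S + 1), G F x t ≤ κ' * S := by
    intro S hS x hx
    refine le_trans (le_of_eq ?_) (hMS S hS x ⟨by linarith [hx.1], by linarith [hx.2]⟩)
    refine intervalIntegral.integral_congr fun t ht => ?_
    rw [uIcc_of_le (by linarith)] at ht
    exact G_eq _ _ (by linarith [ht.1])
  obtain ⟨M, hM⟩ : ∃ M : ℝ, M = 4 * κ' * T := ⟨_, rfl⟩
  have g0 : ∀ x ∈ Icc (3 / 4 : ℝ) (5 / 4), ∫ t in (T / 2 - 1)..(4 * T + 1), G F x t ≤ M := by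
    intro x hx
    have a1 := gS (T / 2) (by linarith) x hx
    have a2 := gS T (by linarith) x hx
    have a3 := gS (2 * T) (by linarith) x hx
    rw [show 2 * (T / 2) + 1 = T + 1 by ring] at a1
    rw [show 2 * (2 * T) + 1 = 4 * T + 1 by ring] at a3
    have b2 := mono x (T + 1) (2 * T + 1) (T - 1) (2 * T + 1) (by linarith) (by linarith) le_rfl
    have b3 := mono x (2 * T + 1) (4 * T + 1) (2 * T - 1) (4 * T + 1) (by linarith) (by linarith)
      le_rfl
    have s1 := intervalIntegral.integral_add_adjacent_intervals (ci x (T / 2 - 1) (T + 1))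
      (ci x (T + 1) (2 * T + 1))
    have s2 := intervalIntegral.integral_add_adjacent_intervals (ci x (T / 2 - 1) (2 * T + 1))
      (ci x (2 * T + 1) (4 * T + 1))
    have hκT : 0 ≤ κ' * T := by
      have : 0 ≤ T := by linarith
      positivity
    rw [hM]
    linarith
  have hM0 : 0 ≤ M := by
    have : 0 ≤ T := by linarith
    rw [hM]; positivity
  have g1 : ∀ x ∈ Icc (1 - 1 / 8 : ℝ) (1 + 1 / 8),
      ∫ t in (T / 2 - 1 / 8)..(4 * T + 1 / 8), G (deriv F) x t ≤ M / (1 / 8) ^ 2 := by
    refine lineD hF (by norm_num) (by linarith) (by linarith) fun x hx => ?_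
    refine (mono x _ _ (T / 2 - 1) (4 * T + 1) (by linarith) (by linarith) (by linarith)).trans
      (g0 x ⟨by linarith [hx.1], by linarith [hx.2]⟩)
  have g2 : ∫ t in (T / 2)..(4 * T), G (deriv (deriv F)) 1 t ≤ M / (1 / 8) ^ 2 / (1 / 8) ^ 2 :=
    lineD hF' (a := 1) (b := 1) (by norm_num) (by linarith) (by linarith) g1 1
      ⟨le_rfl, le_rfl⟩
  have g1' : ∫ t in (T / 2)..(4 * T), G (deriv F) 1 t ≤ M / (1 / 8) ^ 2 := by
    refine le_trans ?_ (g1 1 ⟨by norm_num, by norm_num⟩)
    exact intervalIntegral.integral_mono_interval (by linarith) (by linarith) (by linarith)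
      (Eventually.of_forall fun x => G_nonneg _ _ _) (ci' _ _ _)
  have g0' : ∫ t in (T / 2)..(4 * T), G F 1 t ≤ M :=
    (mono 1 _ _ (T / 2 - 1) (4 * T + 1) (by linarith) (by linarith) (by linarith)).trans
      (g0 1 ⟨by norm_num, by norm_num⟩)
  obtain ⟨f, hf⟩ : ∃ f : ℝ → ℝ,
    f = fun v => G F 1 v + G (deriv F) 1 v + G (deriv (deriv F)) 1 v := ⟨_, rfl⟩
  have hfc : Continuous f := by
    rw [hf]
    exact ((G_cont' hF continuous_const continuous_id).add
      (G_cont' hF' continuous_const continuous_id)).add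
        (G_cont' hF'' continuous_const continuous_id)
  have hf0 : ∀ t, 0 ≤ f t := fun t => by
    rw [hf]
    exact add_nonneg (add_nonneg (G_nonneg _ _ _) (G_nonneg _ _ _)) (G_nonneg _ _ _)
  have hfi : ∫ t in (T / 2)..(4 * T), f t ≤ 4161 * M := by
    have : ∫ t in (T / 2)..(4 * T), f t = (∫ t in (T / 2)..(4 * T), G F 1 t) +
        (∫ t in (T / 2)..(4 * T), G (deriv F) 1 t) +
        ∫ t in (T / 2)..(4 * T), G (deriv (deriv F)) 1 t := by
      rw [hf, ← intervalIntegral.integral_add (ci _ _ _) (ci' _ _ _),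
        ← intervalIntegral.integral_add ((ci _ _ _).add (ci' _ _ _)) (ci'' _ _ _)]
    rw [this]
    have e1 : M / (1 / 8) ^ 2 = 64 * M := by ring
    have e2 : M / (1 / 8) ^ 2 / (1 / 8) ^ 2 = 4096 * M := by ring
    rw [e1] at g1'
    rw [e2] at g2
    linarith
  obtain ⟨E, hE1, hE2, hE3⟩ := h2 f H c T hH hc (by linarith) hfc.continuousOn hf0
  refine ⟨E, hE1, ?_, ?_⟩
  · refine hE2.trans ?_
    have hHc : 0 ≤ (H + 2) / c := by
      have : 0 ≤ H + 2 := by linarith
      positivity
    calc (H + 2) / c * ∫ t in (T / 2)..(4 * T), f t ≤ (H + 2) / c * (4161 * M) :=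
          mul_le_mul_of_nonneg_left hfi hHc
      _ = κ * T := by
          have : H + 2 ≠ 0 := by linarith
          rw [hM, hκd]
          field_simp
          ring
  · intro u hu huE t ht
    have h3 := hE3 u hu huE
    have hu1 : T ≤ u := hu.1
    have ht1 : 1 ≤ t := by linarith [ht.1]
    have h4 : ∫ v in t..(t + 1), f v ≤ c := by
      refine le_trans ?_ h3
      exact intervalIntegral.integral_mono_interval (by linarith [ht.1]) (by linarith)
        (by linarith [ht.2]) (Eventually.of_forall hf0) (hfc.intervalIntegrable _ _)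
    have hk : 0 < η / 2 := by linarith
    have k1 : ∫ v in t..(t + 1), (G F 1 v + G (deriv F) 1 v) ≤ (η / 2) ^ 2 := by
      rw [← hcd]
      refine le_trans ?_ h4
      refine intervalIntegral.integral_mono_on (by linarith) ((ci _ _ _).add (ci' _ _ _))
        (hfc.intervalIntegrable _ _) fun v _ => ?_
      rw [hf]
      have := G_nonneg (deriv (deriv F)) 1 v
      simp only
      linarith
    have k2 : ∫ v in t..(t + 1), (G (deriv F) 1 v + G (deriv (deriv F)) 1 v) ≤ (η / 2) ^ 2 := by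
      rw [← hcd]
      refine le_trans ?_ h4
      refine intervalIntegral.integral_mono_on (by linarith) ((ci' _ _ _).add (ci'' _ _ _))
        (hfc.intervalIntegrable _ _) fun v _ => ?_
      rw [hf]
      have := G_nonneg F 1 v
      simp only
      linarith
    have m1 := aw_pt hF ht1 hk k1
    have m2 := aw_pt hF' ht1 hk k2
    have e : 2 * (η / 2) = η := by ring
    rw [e] at m1 m2
    exact ⟨m1, m2⟩

end Pool.Agent.Helper73.SI
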